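import Pool.Agent.E8helper28.LN.Ch2
import Pool.Agent.TH935.TF7

set_option autoImplicit false
set_option maxHeartbeats 4000000

/-!
# Primes among `f m + h` with arbitrary weights on `m`, for almost all `h`, `f` injective (helper28)
-/

namespace Pool.Agent.E8helper28.IX

open Finset Pool.Agent.H373R2.T7
open Pool.Agent.TH935.TF (LL mdl LL_nonneg LL_le one_mom mdl_nonneg mdl_le ev_loglog)
open Pool.Agent.E8helper28.LN (pp_inj)

lemma energy_inj (Y : ℕ) (s : ℕ → ℤ) (hs : ∀ a ∈ Icc 1 Y, ∀ b ∈ Icc 1 Y, s a = s b → a = b) : energy 1 Y s ≤ Y := by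
  classical
  unfold energy
  have h1 : (Icc 1 Y).card = Y := by rw [Nat.card_Icc, Nat.add_sub_cancel]
  refine le_trans (card_le_card_of_injOn (t := Icc 1 Y) (fun q : (Fin 1 → ℕ) × (Fin 1 → ℕ) => q.1 0) ?_ ?_) (le_of_eq h1)
  · intro q hq
    rw [mem_coe, mem_filter, mem_product] at hq
    exact Fintype.mem_piFinset.1 hq.1.1 0
  · intro q hq r hr hqr
    rw [mem_coe, mem_filter, mem_product] at hq hr
    have a1 := Fintype.mem_piFinset.1 hq.1.1 0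
    have a2 := Fintype.mem_piFinset.1 hq.1.2 0
    have a3 := Fintype.mem_piFinset.1 hr.1.1 0
    have a4 := Fintype.mem_piFinset.1 hr.1.2 0
    have b1 := hq.2
    have b2 := hr.2
    rw [Fin.sum_univ_one, Fin.sum_univ_one] at b1 b2
    have c1 := hs _ a1 _ a2 b1
    have c2 := hs _ a3 _ a4 b2
    simp only at hqr
    have d1 : q.1 = r.1 := by
      funext i
      rw [Subsingleton.elim i 0]
      exact hqr
    have d2 : q.2 = r.2 := by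
      funext i
      rw [Subsingleton.elim i 0, ← c1, ← c2]
      exact hqr
    exact Prod.ext d1 d2

/-- the size of all values -/
noncomputable def sz (D n : ℕ) : ℕ := 2 * n * ⌈Real.log n⌉₊ ^ D

lemma sz_bd (D : ℕ) (δ : ℝ) (hδ : 0 < δ) : ∃ N0 : ℕ, ∀ n : ℕ, N0 ≤ n → 1 ≤ Real.log n ∧ n ≤ sz D n ∧
    (sz D n : ℝ) ≤ 2 ^ (D + 1) * (n * Real.log n ^ D) ∧ Real.log n ≤ Real.log (sz D n) ∧
    Real.log (sz D n) ≤ (1 + δ) * Real.log n ∧
    ∀ a h : ℕ, (a : ℝ) ≤ n * Real.log n ^ D → h ≤ n → a + h ≤ sz D n := by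
  obtain ⟨n1, h1⟩ := ev_L' ((D + 1) * Real.log 2 / (δ / 2) + 1)
  obtain ⟨n2, h2⟩ := ev_loglog D (δ / 2) (half_pos hδ)
  refine ⟨n1 + n2 + 3, fun n hn => ?_⟩
  have b1 := h1 n (by omega)
  have b2 := h2 n (by omega)
  unfold sz
  obtain ⟨L, hL⟩ : ∃ L, L = Real.log (n : ℝ) := ⟨_, rfl⟩
  rw [← hL] at b1 b2 ⊢
  have hl2 : 0 < Real.log 2 := Real.log_pos (by norm_num)
  have q1 : 0 ≤ (D + 1) * Real.log 2 / (δ / 2) := by positivity
  have hL1 : 1 ≤ L := by linarith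
  have hL0 : 0 < L := by linarith
  have hnr : (3 : ℝ) ≤ n := by exact_mod_cast (by omega : 3 ≤ n)
  have hn0 : (0 : ℝ) < n := by linarith
  obtain ⟨c, hc⟩ : ∃ c : ℕ, c = ⌈L⌉₊ := ⟨_, rfl⟩
  rw [← hc]
  have c1 : L ≤ c := by rw [hc]; exact Nat.le_ceil _
  have c2 : (c : ℝ) ≤ 2 * L := by
    have : (c : ℝ) < L + 1 := by rw [hc]; exact Nat.ceil_lt_add_one hL0.le
    linarith
  have c3 : (1 : ℝ) ≤ (c : ℝ) ^ D := one_le_pow₀ (by linarith)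
  have c4 : 1 ≤ c ^ D := by exact_mod_cast c3
  have d1 : n ≤ 2 * n * c ^ D := by nlinarith
  have d2 : ((2 * n * c ^ D : ℕ) : ℝ) ≤ 2 ^ (D + 1) * (n * L ^ D) := by
    push_cast
    calc 2 * (n : ℝ) * c ^ D ≤ 2 * n * (2 * L) ^ D := by gcongr
      _ = _ := by rw [mul_pow]; ring
  have d3 : L ≤ Real.log ((2 * n * c ^ D : ℕ) : ℝ) := by
    rw [hL]
    exact Real.log_le_log hn0 (by exact_mod_cast d1)
  refine ⟨hL1, d1, d2, d3, ?_, ?_⟩
  · have e1 := Real.log_le_log (lt_of_lt_of_le hn0 (by exact_mod_cast d1)) d2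
    rw [Real.log_mul (by positivity) (by positivity), Real.log_pow, Real.log_mul (by positivity) (by positivity), Real.log_pow,
      ← hL] at e1
    push_cast at e1 ⊢
    have e2 : (D + 1) * Real.log 2 ≤ L * (δ / 2) := by
      have : (D + 1) * Real.log 2 / (δ / 2) ≤ L := by linarith
      rwa [div_le_iff₀ (half_pos hδ)] at this
    refine e1.trans ?_
    nlinarith
  · intro a h ha hh
    have e1 : (a : ℝ) ≤ ((n * c ^ D : ℕ) : ℝ) := by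
      push_cast
      refine ha.trans ?_
      gcongr
    have e2 : a ≤ n * c ^ D := by exact_mod_cast e1
    nlinarith

/-- the estimate with prime powers -/
theorem ix_LL (U D : ℕ) : ∃ B0 : ℕ, ∀ E : ℕ, ∃ N0 : ℕ, ∀ n : ℕ, N0 ≤ n → ∀ z : ℕ, Real.log n ^ B0 ≤ z →
    (z : ℝ) ≤ Real.log n ^ E → ∀ Y : ℕ, Y ≤ n → n ≤ 2 * Y → ∀ f : ℕ → ℕ,
    (∀ a ∈ Icc 1 Y, ∀ b ∈ Icc 1 Y, f a = f b → a = b) → (∀ m ∈ Icc 1 Y, (f m : ℝ) ≤ n * Real.log n ^ D) →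
    ∀ K : ℝ, 0 < K → ∀ G : ℕ → ℝ, (∀ m ∈ Icc 1 Y, |G m| ≤ K) →
    ∑ v ∈ Icc 1 n, |∑ m ∈ Icc 1 Y, G m * (LL ((f m : ℤ) + v) - mdl z ((f m : ℤ) + v))| ≤ K * ((n : ℝ) ^ 2 / Real.log n ^ U) := by
  obtain ⟨B1, h1⟩ := one_mom 1 (D + 1) (U + D + 1) 0
  refine ⟨B1 + 1, fun E => ?_⟩
  obtain ⟨n1, h1⟩ := h1 E
  obtain ⟨n2, h2⟩ := ev_L' (2 ^ B1 + 2 ^ (D + 2) + 10)
  obtain ⟨n3, h3⟩ := sz_bd D 1 one_pos
  refine ⟨n1 + n2 + n3 + 3, fun n hn z hz1 hz2 Y hY1 hY2 f hf hfn K hK G hG => ?_⟩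
  have b2 := h2 n (by omega)
  obtain ⟨-, s1, s2, s3, s4, s5⟩ := h3 n (by omega)
  obtain ⟨L, hL⟩ : ∃ L, L = Real.log (n : ℝ) := ⟨_, rfl⟩
  rw [← hL] at b2 hz1 hz2 hfn s2 s3 s4 s5 ⊢
  obtain ⟨X, hX⟩ : ∃ X : ℕ, X = sz D n := ⟨_, rfl⟩
  rw [← hX] at s1 s2 s3 s4 s5
  have p1 : (0 : ℝ) < 2 ^ B1 := by positivity
  have p2 : (0 : ℝ) < 2 ^ (D + 2) := by positivity
  have hL10 : 10 ≤ L := by linarith
  have hL1 : 1 ≤ L := by linarith
  have hL0 : 0 < L := by linarith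
  have hNr : (3 : ℝ) ≤ n := by exact_mod_cast (by omega : 3 ≤ n)
  have hN0 : (0 : ℝ) < n := by linarith
  obtain ⟨LX, hLX⟩ : ∃ LX, LX = Real.log (X : ℝ) := ⟨_, rfl⟩
  rw [← hLX] at s3 s4
  have hLX2 : LX ≤ 2 * L := by linarith
  have hLX0 : 0 < LX := by linarith
  have hz1' : LX ^ B1 ≤ z := by
    refine le_trans ?_ hz1
    calc LX ^ B1 ≤ (2 * L) ^ B1 := pow_le_pow_left₀ hLX0.le hLX2 _
      _ = 2 ^ B1 * L ^ B1 := mul_pow _ _ _
      _ ≤ L * L ^ B1 := mul_le_mul_of_nonneg_right (by linarith) (by positivity)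
      _ = L ^ (B1 + 1) := by ring
  have hz2' : (z : ℝ) ≤ LX ^ E := hz2.trans (pow_le_pow_left₀ hL0.le s3 E)
  have hYr : (n : ℝ) ≤ 2 * Y := by exact_mod_cast hY2
  have hYr1 : (Y : ℝ) ≤ n := by exact_mod_cast hY1
  have hY0 : (0 : ℝ) < Y := by linarith
  have key := h1 X (by omega) Y (fun m => (f m : ℤ)) (fun m hm => by
      rw [abs_of_nonneg (by positivity)]
      have := s5 (f m) 0 (hfn m hm) (Nat.zero_le _)
      exact_mod_cast this) (by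
      rw [← hLX]
      have e1 : (energy 1 Y (fun m => (f m : ℤ)) : ℝ) ≤ Y := by
        exact_mod_cast energy_inj Y (fun m => (f m : ℤ)) (fun a ha b hb h => hf a ha b hb (by exact_mod_cast h))
      calc (energy 1 Y (fun m => (f m : ℤ)) : ℝ) * X ≤ Y * (2 ^ (D + 1) * (n * L ^ D)) :=
            mul_le_mul e1 s2 (Nat.cast_nonneg _) hY0.le
        _ ≤ Y * (2 ^ (D + 1) * ((2 * Y) * L ^ D)) := by gcongr
        _ = 2 ^ (D + 2) * (L ^ D * Y ^ 2) := by ring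
        _ ≤ L * (L ^ D * Y ^ 2) := mul_le_mul_of_nonneg_right (by linarith) (by positivity)
        _ = L ^ (D + 1) * Y ^ (2 * 1) := by ring
        _ ≤ LX ^ (D + 1) * (Y : ℝ) ^ (2 * 1) := by
            apply mul_le_mul_of_nonneg_right _ (by positivity)
            exact pow_le_pow_left₀ hL0.le s3 _) z (by rw [← hLX]; exact hz1') (by rw [← hLX]; exact hz2') 1 one_ne_zero
    n (by rw [Int.natAbs_one, one_mul]; exact s1) 1 one_pos
  rw [← hLX] at key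
  -- signs
  obtain ⟨ε, hε1, hε2⟩ : ∃ ε : ℕ → ℝ, (∀ v, |ε v| ≤ 1) ∧ ∀ v : ℕ,
      |∑ m ∈ Icc 1 Y, G m * (LL ((f m : ℤ) + v) - mdl z ((f m : ℤ) + v))| =
      ε v * ∑ m ∈ Icc 1 Y, G m * (LL ((f m : ℤ) + v) - mdl z ((f m : ℤ) + v)) := by
    refine ⟨fun v => if 0 ≤ ∑ m ∈ Icc 1 Y, G m * (LL ((f m : ℤ) + v) - mdl z ((f m : ℤ) + v)) then 1 else -1, ?_, ?_⟩
    · intro a
      simp only
      split_ifs <;> simp
    · intro a
      simp only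
      split_ifs with h5
      · rw [abs_of_nonneg h5, one_mul]
      · rw [abs_of_neg (not_le.1 h5)]; ring
  rw [sum_congr rfl fun v _ => hε2 v]
  have hsw : ∑ v ∈ Icc 1 n, ε v * ∑ m ∈ Icc 1 Y, G m * (LL ((f m : ℤ) + v) - mdl z ((f m : ℤ) + v)) =
      ∑ m ∈ Icc 1 Y, G m * ∑ v ∈ Icc 1 n, ε v * (LL (1 * v + (f m : ℤ)) - mdl z (1 * v + (f m : ℤ))) := by
    rw [sum_congr rfl fun v _ => mul_sum _ _ _, sum_comm]
    refine sum_congr rfl fun m _ => ?_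
    rw [mul_sum]
    refine sum_congr rfl fun v _ => ?_
    rw [show (1 : ℤ) * v + (f m : ℤ) = (f m : ℤ) + v by ring]
    ring
  rw [hsw]
  have hk := key ε (fun q _ => hε1 q)
  calc ∑ m ∈ Icc 1 Y, G m * ∑ v ∈ Icc 1 n, ε v * (LL (1 * v + (f m : ℤ)) - mdl z (1 * v + (f m : ℤ)))
      ≤ ∑ m ∈ Icc 1 Y, K * |∑ v ∈ Icc 1 n, ε v * (LL (1 * v + (f m : ℤ)) - mdl z (1 * v + (f m : ℤ)))| := by
        refine sum_le_sum fun m hm => ?_
        refine (le_abs_self _).trans ?_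
        rw [abs_mul]
        exact mul_le_mul_of_nonneg_right (hG m hm) (abs_nonneg _)
    _ = K * ∑ m ∈ Icc 1 Y, |∑ v ∈ Icc 1 n, ε v * (LL (1 * v + (f m : ℤ)) - mdl z (1 * v + (f m : ℤ)))| := by rw [mul_sum]
    _ ≤ K * (1 * ((2 * X / LX ^ (U + D + 1)) * Y)) := mul_le_mul_of_nonneg_left hk hK.le
    _ ≤ K * ((n : ℝ) ^ 2 / L ^ U) := by
        apply mul_le_mul_of_nonneg_left _ hK.le
        rw [one_mul]
        calc 2 * (X : ℝ) / LX ^ (U + D + 1) * Y ≤ 2 * (2 ^ (D + 1) * (n * L ^ D)) / L ^ (U + D + 1) * n := by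
              apply mul_le_mul _ hYr1 hY0.le (by positivity)
              apply div_le_div₀ (by positivity) _ (by positivity)
              · exact pow_le_pow_left₀ hL0.le s3 _
              · exact mul_le_mul_of_nonneg_left s2 (by norm_num)
          _ = (2 ^ (D + 2) / L) * (n ^ 2 / L ^ U) := by
              rw [pow_succ L (U + D), pow_add L U D]; field_simp; ring
          _ ≤ 1 * (n ^ 2 / L ^ U) := by
              apply mul_le_mul_of_nonneg_right _ (by positivity)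
              rw [div_le_one hL0]
              linarith
          _ = _ := one_mul _

/-- the same for primes -/
theorem ix_one (U D : ℕ) : ∃ B0 : ℕ, ∀ E : ℕ, ∃ N0 : ℕ, ∀ n : ℕ, N0 ≤ n → ∀ z : ℕ, Real.log n ^ B0 ≤ z →
    (z : ℝ) ≤ Real.log n ^ E → ∀ Y : ℕ, Y ≤ n → n ≤ 2 * Y → ∀ f : ℕ → ℕ,
    (∀ a ∈ Icc 1 Y, ∀ b ∈ Icc 1 Y, f a = f b → a = b) → (∀ m ∈ Icc 1 Y, (f m : ℝ) ≤ n * Real.log n ^ D) →
    ∀ K : ℝ, 0 < K → ∀ G : ℕ → ℝ, (∀ m ∈ Icc 1 Y, |G m| ≤ K) →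
    ∑ v ∈ Icc 1 n, |∑ m ∈ Icc 1 Y, G m * (lamP ((f m : ℤ) + v) - mdl z ((f m : ℤ) + v))| ≤ K * ((n : ℝ) ^ 2 / Real.log n ^ U) := by
  obtain ⟨B1, h1⟩ := ix_LL (U + 1) D
  refine ⟨B1, fun E => ?_⟩
  obtain ⟨n1, h1⟩ := h1 E
  obtain ⟨n2, h2⟩ := ev_L' 10
  obtain ⟨n3, h3⟩ := ev_log' (U + D + 1) (8 * 2 ^ (D + 1))
  obtain ⟨n4, h4⟩ := sz_bd D 1 one_pos
  refine ⟨n1 + n2 + n3 + n4 + 3, fun n hn z hz1 hz2 Y hY1 hY2 f hf hfn K hK G hG => ?_⟩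
  have b1 := h1 n (by omega) z hz1 hz2 Y hY1 hY2 f hf hfn K hK G hG
  have b2 := h2 n (by omega)
  have b3 := h3 n (by omega)
  obtain ⟨-, s1, s2, s3, s4, s5⟩ := h4 n (by omega)
  obtain ⟨L, hL⟩ : ∃ L, L = Real.log (n : ℝ) := ⟨_, rfl⟩
  rw [← hL] at b1 b2 b3 hfn s2 s3 s4 s5 ⊢
  obtain ⟨X, hX⟩ : ∃ X : ℕ, X = sz D n := ⟨_, rfl⟩
  rw [← hX] at s1 s2 s3 s4 s5
  have hL10 : 10 ≤ L := by linarith
  have hL1 : 1 ≤ L := by linarith
  have hL0 : 0 < L := by linarith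
  have hNr : (3 : ℝ) ≤ n := by exact_mod_cast (by omega : 3 ≤ n)
  have hN0 : (0 : ℝ) < n := by linarith
  have hss : √(n : ℝ) * √(n : ℝ) = n := Real.mul_self_sqrt hN0.le
  have hs0 : 0 < √(n : ℝ) := Real.sqrt_pos.2 hN0
  have hX1 : 1 ≤ X := by omega
  have hYr1 : (Y : ℝ) ≤ n := by exact_mod_cast hY1
  have hsq : √(X : ℝ) ≤ 2 ^ (D + 1) * (√(n : ℝ) * L ^ D) := by
    rw [Real.sqrt_le_left (by positivity)]
    refine s2.trans ?_
    have e1 : (1 : ℝ) ≤ 2 ^ (D + 1) := one_le_pow₀ (by norm_num)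
    have e2 : (1 : ℝ) ≤ L ^ D := one_le_pow₀ hL1
    calc (2 : ℝ) ^ (D + 1) * (n * L ^ D) = 1 * 2 ^ (D + 1) * (n * (1 * L ^ D)) := by ring
      _ ≤ 2 ^ (D + 1) * 2 ^ (D + 1) * (n * (L ^ D * L ^ D)) := by gcongr
      _ = (2 ^ (D + 1) * (√n * L ^ D)) ^ 2 := by
          rw [mul_pow, mul_pow, Real.sq_sqrt hN0.le]
          ring
  have hval : ∀ m ∈ Icc 1 Y, ∀ v ∈ Icc 1 n, (f m : ℤ) + v ≤ X := by
    intro m hm v hv
    have := s5 (f m) v (hfn m hm) (mem_Icc.1 hv).2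
    exact_mod_cast this
  have hpp : ∑ v ∈ Icc 1 n, ∑ m ∈ Icc 1 Y, K * (lamI ((f m : ℤ) + v) - lamP ((f m : ℤ) + v)) ≤
      K * (n * (2 * (2 ^ (D + 1) * (√n * L ^ D)) * (2 * L))) := by
    rw [sum_comm]
    have h5 : ∀ m ∈ Icc 1 Y, ∑ v ∈ Icc 1 n, K * (lamI ((f m : ℤ) + v) - lamP ((f m : ℤ) + v)) ≤
        K * (2 * (2 ^ (D + 1) * (√n * L ^ D)) * (2 * L)) := by
      intro m hm
      rw [← mul_sum]
      apply mul_le_mul_of_nonneg_left _ hK.le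
      refine (pp_inj (Icc 1 n) X (fun v => (f m : ℤ) + v) (fun v _ w _ h => by
        omega) hX1 (fun v hv => hval m hm v hv)).trans ?_
      apply mul_le_mul _ (by linarith) (by linarith) (by positivity)
      exact mul_le_mul_of_nonneg_left hsq (by norm_num)
    refine (sum_le_sum h5).trans ?_
    rw [sum_const, Nat.card_Icc, nsmul_eq_mul, Nat.add_sub_cancel]
    have e0 : 0 ≤ K * (2 * (2 ^ (D + 1) * (√n * L ^ D)) * (2 * L)) := by positivity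
    calc (Y : ℝ) * (K * (2 * (2 ^ (D + 1) * (√n * L ^ D)) * (2 * L))) ≤ n * (K * (2 * (2 ^ (D + 1) * (√n * L ^ D)) * (2 * L))) :=
          mul_le_mul_of_nonneg_right hYr1 e0
      _ = _ := by ring
  have hmain : ∑ v ∈ Icc 1 n, |∑ m ∈ Icc 1 Y, G m * (lamP ((f m : ℤ) + v) - mdl z ((f m : ℤ) + v))| ≤
      ∑ v ∈ Icc 1 n, |∑ m ∈ Icc 1 Y, G m * (LL ((f m : ℤ) + v) - mdl z ((f m : ℤ) + v))| +
      ∑ v ∈ Icc 1 n, ∑ m ∈ Icc 1 Y, K * (lamI ((f m : ℤ) + v) - lamP ((f m : ℤ) + v)) := by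
    rw [← sum_add_distrib]
    refine sum_le_sum fun v hv => ?_
    have e1 : ∑ m ∈ Icc 1 Y, G m * (lamP ((f m : ℤ) + v) - mdl z ((f m : ℤ) + v)) =
        ∑ m ∈ Icc 1 Y, G m * (LL ((f m : ℤ) + v) - mdl z ((f m : ℤ) + v)) -
        ∑ m ∈ Icc 1 Y, G m * (lamI ((f m : ℤ) + v) - lamP ((f m : ℤ) + v)) := by
      rw [← sum_sub_distrib]
      refine sum_congr rfl fun m hm => ?_
      have h5 : (1 : ℤ) ≤ (f m : ℤ) + v := by
        have := (mem_Icc.1 hv).1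
        omega
      have h6 : LL ((f m : ℤ) + v) = lamI ((f m : ℤ) + v) := by
        unfold LL lamI
        rw [if_pos h5]
        congr 1
      rw [h6]
      ring
    rw [e1]
    refine (abs_sub _ _).trans ?_
    apply add_le_add le_rfl
    refine (abs_sum_le_sum_abs _ _).trans (sum_le_sum fun m hm => ?_)
    rw [abs_mul, abs_of_nonneg (sub_nonneg.2 (lamP_le _))]
    exact mul_le_mul_of_nonneg_right (hG m hm) (sub_nonneg.2 (lamP_le _))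
  refine hmain.trans ((add_le_add b1 hpp).trans ?_)
  rw [← mul_add]
  apply mul_le_mul_of_nonneg_left _ hK.le
  have e2 : (n : ℝ) ^ 2 / L ^ (U + 1) ≤ (1 / 2) * (n ^ 2 / L ^ U) := by
    rw [show (n : ℝ) ^ 2 / L ^ (U + 1) = (1 / L) * (n ^ 2 / L ^ U) by rw [pow_succ L U]; field_simp]
    apply mul_le_mul_of_nonneg_right _ (by positivity)
    exact one_div_le_one_div_of_le (by norm_num) (by linarith)
  have e3 : n * (2 * (2 ^ (D + 1) * (√n * L ^ D)) * (2 * L)) ≤ (1 / 2) * ((n : ℝ) ^ 2 / L ^ U) := by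
    rw [← mul_div_assoc, le_div_iff₀ (by positivity)]
    calc (n : ℝ) * (2 * (2 ^ (D + 1) * (√n * L ^ D)) * (2 * L)) * L ^ U
        = (1 / 2) * (8 * 2 ^ (D + 1) * L ^ (U + D + 1)) * (√n * n) := by
          rw [pow_succ L (U + D), pow_add L U D]; ring
      _ ≤ (1 / 2) * √n * (√n * n) := by gcongr
      _ = 1 / 2 * n ^ 2 := by
          rw [show (1 / 2) * √(n : ℝ) * (√n * n) = (1 / 2) * (√n * √n) * n by ring, hss]
          ring
  linarith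

end Pool.Agent.E8helper28.IX
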