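import Pool.Agent.E8helper28.IX.Ix1
import Pool.Agent.TH935.TG2

set_option autoImplicit false
set_option maxHeartbeats 4000000

/-!
# Primes among `f i m + h i` for the elements `m` of arbitrary sets, for almost all `h`, `f i` injective (helper28)
-/

namespace Pool.Agent.E8helper28.IX

open Finset Pool.Agent.H373R2.T7
open Pool.Agent.TH935.TF (LL mdl LL_nonneg LL_le one_mom mdl_nonneg mdl_le ev_loglog)
open Pool.Agent.H560R3.GB (choose_delta)

/-- the hypotheses on the maps -/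
def Fam (D n Y : ℕ) {k : ℕ} (f : Fin k → ℕ → ℕ) : Prop :=
  ∀ i, (∀ a ∈ Icc 1 Y, ∀ b ∈ Icc 1 Y, f i a = f i b → a = b) ∧ (∀ m ∈ Icc 1 Y, (f i m : ℝ) ≤ n * Real.log n ^ D)

/-- the vectors of shifts -/
def vec (k n : ℕ) : Finset (Fin k → ℕ) := Fintype.piFinset (fun _ : Fin k => Icc 1 n)

theorem ix_mom (k D U : ℕ) : ∃ B0 : ℕ, ∀ E : ℕ, ∃ N0 : ℕ, ∀ n : ℕ, N0 ≤ n → ∀ z : ℕ, Real.log n ^ B0 ≤ z →
    (z : ℝ) ≤ Real.log n ^ E → ∀ Y : ℕ, Y ≤ n → n ≤ 2 * Y → ∀ f : Fin k → ℕ → ℕ, Fam D n Y f →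
    ∀ w : ℕ → ℝ, (∀ m, |w m| ≤ 1) →
    ∑ A ∈ vec k n, |∑ m ∈ Icc 1 Y, w m * (∏ i, lamP ((f i m : ℤ) + A i) - ∏ i, mdl z ((f i m : ℤ) + A i))| ≤
      (n : ℝ) ^ (k + 1) / Real.log n ^ U := by
  obtain ⟨B0, h0⟩ := ix_one (U + k + 1) D
  refine ⟨B0 + 1, fun E => ?_⟩
  obtain ⟨n0, h0⟩ := h0 E
  obtain ⟨n1, h1⟩ := ev_L' (k * 2 ^ k + 10)
  obtain ⟨n2, h2⟩ := sz_bd D 1 one_pos
  obtain ⟨n3, h3⟩ := Vz_inv_small E
  refine ⟨n0 + n1 + n2 + n3 + 3, fun n hn z hz1 hz2 Y hY1 hY2 f hf w hw => ?_⟩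
  have b1 := h1 n (by omega)
  obtain ⟨-, s1, s2, s3, s4, s5⟩ := h2 n (by omega)
  have b3 := h3 n (by omega) z
  have b0 := h0 n (by omega) z
  have hf' := hf
  unfold Fam at hf'
  obtain ⟨L, hL⟩ : ∃ L, L = Real.log (n : ℝ) := ⟨_, rfl⟩
  rw [← hL] at b0 b1 b3 hz1 hz2 hf' s2 s3 s4 s5 ⊢
  have hkB : (0 : ℝ) ≤ k * 2 ^ k := by positivity
  have hL10 : 10 ≤ L := by linarith
  have hL1 : 1 ≤ L := by linarith
  have hL0 : 0 < L := by linarith
  have hNr : (3 : ℝ) ≤ n := by exact_mod_cast (by omega : 3 ≤ n)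
  have hN0 : (0 : ℝ) < n := by linarith
  have hz1r : 1 ≤ z := by
    have : (1 : ℝ) ≤ z := (one_le_pow₀ hL1).trans hz1
    exact_mod_cast this
  have hV := b3 hz1r hz2
  have key := tele Y (fun _ : Fin k => n) (fun _ => by omega)
    (fun i m v => lamP ((f i m : ℤ) + v)) (fun i m v => mdl z ((f i m : ℤ) + v)) (2 * L) (n / L ^ (U + k + 1)) (by linarith) (by positivity)
    (fun i m hm v hv => by
      rw [abs_of_nonneg (lamP_nonneg _)]
      have e1 : (f i m : ℤ) + (v : ℤ) = ((f i m + v : ℕ) : ℤ) := by push_cast; ring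
      rw [e1]
      unfold lamP
      rw [Int.toNat_natCast]
      split_ifs with h5
      · refine le_trans ?_ (s4.trans (by linarith))
        apply Real.log_le_log
        · exact_mod_cast h5.pos
        · exact_mod_cast s5 (f i m) v ((hf' i).2 m hm) (mem_Icc.1 hv).2
      · positivity)
    (fun i m hm v hv => by
      rw [abs_of_nonneg (mdl_nonneg _ _)]
      exact (mdl_le _ _).trans (hV.trans (by linarith)))
    (by
      intro i K hK G hG
      refine (b0 ((pow_le_pow_right₀ hL1 (by omega)).trans hz1) hz2 Y hY1 hY2 (f i) (hf' i).1 (hf' i).2 K hK G hG).trans ?_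
      apply mul_le_mul_of_nonneg_left _ hK.le
      apply le_of_eq
      field_simp)
    univ 1 one_pos (fun m _ => w m) (fun m _ _ _ => hw m) (fun _ _ _ _ _ => rfl)
  unfold vec
  refine key.trans ?_
  rw [card_univ, Fintype.card_fin, prod_const, card_univ, Fintype.card_fin]
  calc (k : ℝ) * (1 * (2 * L) ^ k * (n / L ^ (U + k + 1))) * (n : ℝ) ^ k
      = (k * 2 ^ k / L) * (n ^ (k + 1) / L ^ U) := by
        rw [mul_pow, show U + k + 1 = k + U + 1 by ring, pow_succ L (k + U), pow_add L k U, pow_succ (n : ℝ) k]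
        field_simp
    _ ≤ 1 * (n ^ (k + 1) / L ^ U) := by
        apply mul_le_mul_of_nonneg_right _ (by positivity)
        rw [div_le_one hL0]
        linarith
    _ = _ := one_mul _

/-- all values are primes -/
def qP {k : ℕ} (f : Fin k → ℕ → ℕ) (A : Fin k → ℕ) (m : ℕ) : Prop := ∀ i, (f i m + A i).Prime

/-- no value has a small prime factor -/
def qR {k : ℕ} (f : Fin k → ℕ → ℕ) (z : ℕ) (A : Fin k → ℕ) (m : ℕ) : Prop := ∀ i, ∀ p ∈ pz z, ¬ p ∣ f i m + A i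

open Classical in
lemma sum_mdlq {k : ℕ} (f : Fin k → ℕ → ℕ) (A : Fin k → ℕ) (z : ℕ) (M : Finset ℕ) :
    ∑ m ∈ M, ∏ i, mdl z ((f i m : ℤ) + A i) = (Vz z)⁻¹ ^ k * (M.filter (fun m => qR f z A m)).card := by
  rw [card_filter]
  push_cast
  rw [mul_sum]
  apply sum_congr rfl
  intro m _
  have e : ∀ i : Fin k, mdl z ((f i m : ℤ) + A i) = if ∀ p ∈ pz z, ¬ p ∣ f i m + A i then (Vz z)⁻¹ else 0 := by
    intro i
    unfold mdl
    rw [show (f i m : ℤ) + (A i : ℤ) = ((f i m + A i : ℕ) : ℤ) by push_cast; ring]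
    simp only [Int.natCast_dvd_natCast]
  by_cases h5 : qR f z A m
  · rw [if_pos h5, mul_one]
    have h7 : ∀ i : Fin k, mdl z ((f i m : ℤ) + A i) = (Vz z)⁻¹ := fun i => by rw [e i, if_pos (h5 i)]
    rw [prod_congr rfl (fun i _ => h7 i), prod_const, card_univ, Fintype.card_fin]
  · rw [if_neg h5, mul_zero]
    unfold qR at h5
    push Not at h5
    obtain ⟨i, p, hp, hi⟩ := h5
    refine prod_eq_zero (mem_univ i) ?_
    rw [e i]
    exact if_neg (fun h => h p hp hi)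

open Classical in
/-- from the weights to the numbers of prime values -/
theorem conv_ix (k D K S : ℕ) (ε : ℝ) (hε : 0 < ε) : ∃ N0 : ℕ, ∀ n : ℕ, N0 ≤ n →
    ∀ Y : ℕ, ∀ f : Fin k → ℕ → ℕ, Fam D n Y f →
    ∀ A : Fin k → ℕ, A ∈ vec k n → (∀ i, (n : ℝ) / Real.log n ^ S ≤ A i) →
    ∀ M : Finset ℕ, M ⊆ Icc 1 Y → ∀ Q : ℝ, (n : ℝ) / Real.log n ^ K ≤ Q →
    |∑ m ∈ M, ∏ i, lamP ((f i m : ℤ) + A i) - Q| ≤ n / Real.log n ^ (K + 1) →
    |((M.filter (fun m => qP f A m)).card : ℝ) - Q / Real.log n ^ k| ≤ ε * (Q / Real.log n ^ k) := by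
  obtain ⟨δ, hδ0, hδ1, hδa, hδb⟩ := choose_delta k ε hε
  obtain ⟨n1, h1⟩ := ev_loglog S δ hδ0
  obtain ⟨n2, h2⟩ := ev_L' (2 / δ + 4)
  obtain ⟨n3, h3⟩ := sz_bd D δ hδ0
  refine ⟨n1 + n2 + n3 + 4, fun n hn Y f hf A hA hAS M hM Q hQlow hW => ?_⟩
  have b1 := h1 n (by omega)
  have b2 := h2 n (by omega)
  obtain ⟨-, s1, s2, s3, s4, s5⟩ := h3 n (by omega)
  have hf' := hf
  unfold Fam at hf'
  obtain ⟨L, hL⟩ : ∃ L, L = Real.log (n : ℝ) := ⟨_, rfl⟩
  rw [← hL] at b1 b2 hAS hQlow hW s2 s3 s4 s5 hf' ⊢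
  have q1 : 0 ≤ 2 / δ := by positivity
  have hL4 : 4 ≤ L := by linarith
  have hL1 : 1 ≤ L := by linarith
  have hL0 : 0 < L := by linarith
  have hNr : (4 : ℝ) ≤ n := by exact_mod_cast (by omega : 4 ≤ n)
  have hN0 : (0 : ℝ) < n := by linarith
  have hQ0 : 0 < Q := lt_of_lt_of_le (by positivity) hQlow
  obtain ⟨W, hWd⟩ : ∃ W, W = ∑ m ∈ M, ∏ i, lamP ((f i m : ℤ) + A i) := ⟨_, rfl⟩
  rw [← hWd] at hW
  have hWQ : |W - Q| ≤ δ / 2 * Q := by
    refine hW.trans ?_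
    have e1 : 2 ≤ L * δ := by
      have : 2 / δ ≤ L := by linarith
      rwa [div_le_iff₀ hδ0] at this
    calc (n : ℝ) / L ^ (K + 1) = (1 / L) * (n / L ^ K) := by rw [pow_succ]; field_simp
      _ ≤ (δ / 2) * (n / L ^ K) := by
          apply mul_le_mul_of_nonneg_right _ (by positivity)
          rw [div_le_iff₀ hL0]
          linarith
      _ ≤ δ / 2 * Q := mul_le_mul_of_nonneg_left hQlow (by positivity)
  obtain ⟨w1, w2⟩ := abs_le.1 hWQ
  obtain ⟨P, hP⟩ : ∃ P : ℝ, P = ((M.filter (fun m => qP f A m)).card : ℝ) := ⟨_, rfl⟩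
  have hP0 : 0 ≤ P := by rw [hP]; exact Nat.cast_nonneg _
  rw [← hP]
  have hA2 : ∀ i, 1 ≤ A i ∧ A i ≤ n := by
    intro i
    unfold vec at hA
    exact mem_Icc.1 (Fintype.mem_piFinset.1 hA i)
  -- the terms
  have hterm : ∀ m ∈ M, (qP f A m → (L * (1 - δ)) ^ k ≤ ∏ i, lamP ((f i m : ℤ) + A i) ∧ ∏ i, lamP ((f i m : ℤ) + A i) ≤ (L * (1 + δ)) ^ k) ∧
      (¬ qP f A m → ∏ i, lamP ((f i m : ℤ) + A i) = 0) := by
    intro m hm
    have hlam : ∀ i, lamP ((f i m : ℤ) + A i) = if (f i m + A i).Prime then Real.log ((f i m + A i : ℕ) : ℝ) else 0 := by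
      intro i
      unfold lamP
      rw [show (f i m : ℤ) + (A i : ℤ) = ((f i m + A i : ℕ) : ℤ) by push_cast; ring, Int.toNat_natCast]
    constructor
    · intro hq
      have hi : ∀ i, L * (1 - δ) ≤ lamP ((f i m : ℤ) + A i) ∧ lamP ((f i m : ℤ) + A i) ≤ L * (1 + δ) := by
        intro i
        rw [hlam i, if_pos (hq i)]
        have hpos : (0 : ℝ) < ((f i m + A i : ℕ) : ℝ) := by exact_mod_cast (hq i).pos
        constructor
        · have h5 : (n : ℝ) / L ^ S ≤ ((f i m + A i : ℕ) : ℝ) := by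
            refine (hAS i).trans ?_
            exact_mod_cast Nat.le_add_left _ _
          have h6 := Real.log_le_log (by positivity) h5
          rw [Real.log_div (by positivity) (by positivity), Real.log_pow, ← hL] at h6
          push_cast at h6 ⊢
          nlinarith
        · have h5 : ((f i m + A i : ℕ) : ℝ) ≤ (sz D n : ℝ) := by
            exact_mod_cast s5 (f i m) (A i) ((hf' i).2 m (hM hm)) (hA2 i).2
          have h6 := Real.log_le_log hpos h5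
          linarith
      have hpos : 0 ≤ L * (1 - δ) := by
        have : 0 < 1 - δ := by linarith
        positivity
      constructor
      · calc (L * (1 - δ)) ^ k = ∏ _i : Fin k, (L * (1 - δ)) := by rw [prod_const, card_univ, Fintype.card_fin]
          _ ≤ _ := prod_le_prod (fun _ _ => hpos) fun i _ => (hi i).1
      · calc ∏ i, lamP ((f i m : ℤ) + A i) ≤ ∏ _i : Fin k, (L * (1 + δ)) := prod_le_prod (fun _ _ => lamP_nonneg _) fun i _ => (hi i).2
          _ = _ := by rw [prod_const, card_univ, Fintype.card_fin]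
    · intro hq
      unfold qP at hq
      push Not at hq
      obtain ⟨i, hi⟩ := hq
      refine prod_eq_zero (mem_univ i) ?_
      rw [hlam i, if_neg hi]
  have hWs : W = ∑ m ∈ M.filter (fun m => qP f A m), ∏ i, lamP ((f i m : ℤ) + A i) := by
    rw [hWd, sum_filter]
    refine sum_congr rfl fun m hm => ?_
    by_cases hq : qP f A m
    · rw [if_pos hq]
    · rw [if_neg hq, (hterm m hm).2 hq]
  have hlow : (L * (1 - δ)) ^ k * P ≤ W := by
    rw [hWs, hP, mul_comm, ← nsmul_eq_mul]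
    apply card_nsmul_le_sum
    intro m hm
    rw [mem_filter] at hm
    exact ((hterm m hm.1).1 hm.2).1
  have hup : W ≤ (L * (1 + δ)) ^ k * P := by
    rw [hWs, hP, mul_comm, ← nsmul_eq_mul]
    apply sum_le_card_nsmul
    intro m hm
    rw [mem_filter] at hm
    exact ((hterm m hm.1).1 hm.2).2
  have h2L : 0 < L ^ k := by positivity
  have h1δ : 0 < 1 - δ := by linarith
  have g1 : (1 - ε) * Q ≤ L ^ k * P := by
    rw [mul_pow L] at hup
    have h5 : (1 - δ) * Q ≤ L ^ k * (1 + δ) ^ k * P := by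
      have : (1 - δ) * Q ≤ W := by nlinarith
      linarith
    have h6 : (0 : ℝ) < (1 + δ) ^ k := by positivity
    have h7 : (1 - ε) * (1 + δ) ^ k ≤ 1 - δ ∨ 1 - ε < 0 := by
      by_cases he : 1 - ε < 0
      · exact Or.inr he
      · left
        refine le_trans ?_ hδa
        apply mul_le_mul_of_nonneg_left _ (not_lt.1 he)
        exact pow_le_pow_right₀ (by linarith) (by omega)
    rcases h7 with h7 | h7
    · have h8 : (1 - ε) * (1 + δ) ^ k * Q ≤ L ^ k * (1 + δ) ^ k * P := (mul_le_mul_of_nonneg_right h7 hQ0.le).trans h5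
      have h9 : (1 + δ) ^ k * ((1 - ε) * Q) ≤ (1 + δ) ^ k * (L ^ k * P) := by linarith
      exact le_of_mul_le_mul_left h9 h6
    · have h8 : (1 - ε) * Q ≤ 0 := mul_nonpos_of_nonpos_of_nonneg h7.le hQ0.le
      exact h8.trans (by positivity)
  have g2 : L ^ k * P ≤ (1 + ε) * Q := by
    rw [mul_pow L] at hlow
    have h5 : L ^ k * (1 - δ) ^ k * P ≤ (1 + 2 * δ) * Q := by
      have : W ≤ (1 + 2 * δ) * Q := by nlinarith
      linarith
    have h6 : 0 < (1 - δ) ^ k := by positivity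
    have h7 : 1 + 2 * δ ≤ (1 + ε) * (1 - δ) ^ k := by
      refine hδb.trans ?_
      apply mul_le_mul_of_nonneg_left _ (by linarith)
      exact pow_le_pow_of_le_one h1δ.le (by linarith) (by omega)
    have h8 : (1 - δ) ^ k * (L ^ k * P) ≤ (1 - δ) ^ k * ((1 + ε) * Q) := by
      have := mul_le_mul_of_nonneg_right h7 hQ0.le
      linarith
    exact le_of_mul_le_mul_left h8 h6
  have e1 : P - Q / L ^ k = (L ^ k * P - Q) / L ^ k := by field_simp
  have e2 : ε * (Q / L ^ k) = (ε * Q) / L ^ k := by ring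
  rw [e1, e2, abs_div, abs_of_pos h2L]
  apply div_le_div_of_nonneg_right _ h2L.le
  rw [abs_le]
  constructor <;> linarith

open Classical in
/-- the number of the elements with prime values -/
noncomputable def cq {k : ℕ} (f : Fin k → ℕ → ℕ) (A : Fin k → ℕ) (M : Finset ℕ) : ℕ := (M.filter (fun m => qP f A m)).card

open Classical in
/-- the number of the elements with rough values -/
noncomputable def rq {k : ℕ} (f : Fin k → ℕ → ℕ) (z : ℕ) (A : Fin k → ℕ) (M : Finset ℕ) : ℕ := (M.filter (fun m => qR f z A m)).card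

/-- the relative asymptotics -/
def QA {k : ℕ} {τ : Type} (ε : ℝ) (K n z : ℕ) (f : Fin k → ℕ → ℕ) (𝒩 : τ → Finset ℕ) (A : Fin k → ℕ) : Prop :=
  ∀ l : τ, (n : ℝ) / Real.log n ^ K ≤ rq f z A (𝒩 l) →
    |(cq f A (𝒩 l) : ℝ) - rq f z A (𝒩 l) / (Vz z * Real.log n) ^ k| ≤ ε * (rq f z A (𝒩 l) / (Vz z * Real.log n) ^ k)

/-- few vectors have a small coordinate -/
lemma small_vec (k n : ℕ) (hn : 1 ≤ n) (t : ℝ) (ht : 0 ≤ t) :
    (((vec k n).filter (fun A => ∃ i, (A i : ℝ) < t)).card : ℝ) * n ≤ k * t * (n : ℝ) ^ k := by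
  classical
  have hsub : (vec k n).filter (fun A => ∃ i, (A i : ℝ) < t) ⊆
      univ.biUnion (fun i : Fin k => (vec k n).filter (fun A => (A i : ℝ) < t)) := by
    intro A hA
    rw [mem_filter] at hA
    obtain ⟨h1, i, hi⟩ := hA
    rw [mem_biUnion]
    exact ⟨i, mem_univ _, mem_filter.2 ⟨h1, hi⟩⟩
  have h1 : ∀ i : Fin k, (((vec k n).filter (fun A => (A i : ℝ) < t)).card : ℝ) * n ≤ t * (n : ℝ) ^ k := by
    intro i
    have e : (vec k n).filter (fun A => (A i : ℝ) < t) =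
        Fintype.piFinset (fun j : Fin k => if j = i then (Icc 1 n).filter (fun a : ℕ => (a : ℝ) < t) else Icc 1 n) := by
      ext A
      unfold vec
      rw [mem_filter, Fintype.mem_piFinset, Fintype.mem_piFinset]
      constructor
      · rintro ⟨h2, h3⟩ j
        by_cases hj : j = i
        · rw [if_pos hj, mem_filter]
          exact ⟨h2 j, by rw [hj]; exact h3⟩
        · rw [if_neg hj]
          exact h2 j
      · intro h2
        refine ⟨fun j => ?_, ?_⟩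
        · have h3 := h2 j
          by_cases hj : j = i
          · rw [if_pos hj, mem_filter] at h3
            exact h3.1
          · rw [if_neg hj] at h3
            exact h3
        · have h3 := h2 i
          rw [if_pos rfl, mem_filter] at h3
          exact h3.2
    rw [e, Fintype.card_piFinset]
    have e2 : ∀ j : Fin k, (if j = i then (Icc 1 n).filter (fun a : ℕ => (a : ℝ) < t) else Icc 1 n).card =
        if j = i then ((Icc 1 n).filter (fun a : ℕ => (a : ℝ) < t)).card else n := by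
      intro j
      split_ifs
      · rfl
      · rw [Nat.card_Icc, Nat.add_sub_cancel]
    rw [prod_congr rfl fun j _ => e2 j, ← mul_prod_erase univ _ (mem_univ i), if_pos rfl]
    have e3 : ∏ j ∈ univ.erase i, (if j = i then ((Icc 1 n).filter (fun a : ℕ => (a : ℝ) < t)).card else n) =
        n ^ (k - 1) := by
      rw [prod_congr rfl (g := fun _ => n), prod_const, card_erase_of_mem (mem_univ i), card_univ, Fintype.card_fin]
      intro j hj
      rw [if_neg (mem_erase.1 hj).1]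
    rw [e3]
    have e4 : (((Icc 1 n).filter (fun a : ℕ => (a : ℝ) < t)).card : ℝ) ≤ t := by
      have h5 : (Icc 1 n).filter (fun a : ℕ => (a : ℝ) < t) ⊆ Icc 1 ⌊t⌋₊ := by
        intro a ha
        rw [mem_filter, mem_Icc] at ha
        rw [mem_Icc]
        exact ⟨ha.1.1, Nat.le_floor ha.2.le⟩
      have h6 := card_le_card h5
      rw [Nat.card_Icc, Nat.add_sub_cancel] at h6
      exact (by exact_mod_cast h6 : (((Icc 1 n).filter (fun a : ℕ => (a : ℝ) < t)).card : ℝ) ≤ (⌊t⌋₊ : ℝ)).trans (Nat.floor_le ht)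
    have hk : 1 ≤ k := by
      have := i.2
      omega
    have h7 : (n : ℝ) ^ k = (n : ℝ) ^ (k - 1) * n := by
      rw [← pow_succ]
      congr 1
      omega
    push_cast
    rw [h7]
    calc (((Icc 1 n).filter (fun a : ℕ => (a : ℝ) < t)).card : ℝ) * (n : ℝ) ^ (k - 1) * n
        ≤ t * (n : ℝ) ^ (k - 1) * n := by gcongr
      _ = _ := by ring
  have h2 : (((vec k n).filter (fun A => ∃ i, (A i : ℝ) < t)).card : ℝ) ≤
      ∑ i : Fin k, (((vec k n).filter (fun A => (A i : ℝ) < t)).card : ℝ) := by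
    exact_mod_cast (card_le_card hsub).trans card_biUnion_le
  calc (((vec k n).filter (fun A => ∃ i, (A i : ℝ) < t)).card : ℝ) * n
      ≤ (∑ i : Fin k, (((vec k n).filter (fun A => (A i : ℝ) < t)).card : ℝ)) * n :=
        mul_le_mul_of_nonneg_right h2 (by positivity)
    _ = ∑ i : Fin k, (((vec k n).filter (fun A => (A i : ℝ) < t)).card : ℝ) * n := by rw [sum_mul]
    _ ≤ ∑ _i : Fin k, t * (n : ℝ) ^ k := sum_le_sum fun i _ => h1 i
    _ = _ := by rw [sum_const, card_univ, Fintype.card_fin, nsmul_eq_mul]; ring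

open Classical in
theorem arb_ix (k D T U K : ℕ) (ε : ℝ) (hε : 0 < ε) : ∃ E0 : ℕ, ∀ E : ℕ, E0 ≤ E →
    ∃ N0 : ℕ, ∀ n : ℕ, N0 ≤ n → ∀ Y : ℕ, Y ≤ n → n ≤ 2 * Y → ∀ f : Fin k → ℕ → ℕ, Fam D n Y f →
    ∀ (τ : Type) [Fintype τ], (Fintype.card τ : ℝ) ≤ Real.log n ^ T →
    ∀ 𝒩 : τ → Finset ℕ, (∀ l, 𝒩 l ⊆ Icc 1 Y) →
    (((vec k n).filter (fun A => ¬ QA ε K n ⌊Real.log n ^ E⌋₊ f 𝒩 A)).card : ℝ) ≤ (n : ℝ) ^ k / Real.log n ^ U := by
  obtain ⟨B0, hB0⟩ := ix_mom k D (U + T + K + 2)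
  refine ⟨B0 + 1, fun E hE0 => ?_⟩
  obtain ⟨n0, h0⟩ := hB0 E
  obtain ⟨n1, h1⟩ := conv_ix k D K (U + 1) ε hε
  obtain ⟨n2, h2⟩ := ev_L' (10 + 2 * k)
  refine ⟨n0 + n1 + n2 + 3, fun n hn Y hY1 hY2 f hf τ _ ht 𝒩 h𝒩 => ?_⟩
  have b1 := h1 n (by omega) Y f hf
  have b2 := h2 n (by omega)
  have b0 := h0 n (by omega)
  obtain ⟨L, hL⟩ : ∃ L, L = Real.log (n : ℝ) := ⟨_, rfl⟩
  obtain ⟨z, hz⟩ : ∃ z : ℕ, z = ⌊Real.log n ^ E⌋₊ := ⟨_, rfl⟩
  rw [← hz]
  have hkB : (0 : ℝ) ≤ 2 * k := by positivity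
  have b0' := b0 z (by
      rw [hz]
      rw [← hL] at b2 ⊢
      have e1 : L ^ E < ⌊L ^ E⌋₊ + 1 := Nat.lt_floor_add_one _
      have e2 : L ^ (B0 + 1) ≤ L ^ E := pow_le_pow_right₀ (by linarith) hE0
      have e3 : 1 ≤ L ^ B0 := one_le_pow₀ (by linarith)
      rw [pow_succ] at e2
      nlinarith) (by
      rw [hz]
      rw [← hL] at b2 ⊢
      exact Nat.floor_le (pow_nonneg (by linarith) _)) Y hY1 hY2 f hf
  rw [← hL] at b0' b1 b2 ht ⊢
  have hL10 : 10 ≤ L := by linarith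
  have hL1 : 1 ≤ L := by linarith
  have hL0 : 0 < L := by linarith
  have hNr : (3 : ℝ) ≤ n := by exact_mod_cast (by omega : 3 ≤ n)
  have hN0 : (0 : ℝ) < n := by linarith
  -- the vectors with a small coordinate
  obtain ⟨𝒜, h𝒜⟩ : ∃ 𝒜, 𝒜 = (vec k n).filter (fun A => ∃ i, (A i : ℝ) < (n : ℝ) / L ^ (U + 1)) := ⟨_, rfl⟩
  have hA1 : (𝒜.card : ℝ) ≤ (1 / 2) * (n ^ k / L ^ U) := by
    have h5 := small_vec k n (by omega) ((n : ℝ) / L ^ (U + 1)) (by positivity)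
    rw [← h𝒜] at h5
    have h6 : (𝒜.card : ℝ) ≤ k * n ^ k / L ^ (U + 1) := by
      have h7 : (k : ℝ) * ((n : ℝ) / L ^ (U + 1)) * (n : ℝ) ^ k = (k * n ^ k / L ^ (U + 1)) * n := by ring
      rw [h7] at h5
      exact le_of_mul_le_mul_right h5 hN0
    refine h6.trans ?_
    rw [pow_succ L U, div_le_iff₀ (by positivity)]
    calc (k : ℝ) * n ^ k = (1 / 2) * (2 * k) * n ^ k := by ring
      _ ≤ (1 / 2) * L * n ^ k := by gcongr; linarith
      _ = 1 / 2 * (n ^ k / L ^ U) * (L ^ U * L) := by field_simp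
  obtain ⟨𝒮, h𝒮⟩ : ∃ 𝒮, 𝒮 = ((vec k n).filter (fun A => ¬ QA ε K n z f 𝒩 A)) \ 𝒜 := ⟨_, rfl⟩
  have hindic : ∀ (M : Finset ℕ), M ⊆ Icc 1 Y → ∀ F : ℕ → ℝ,
      ∑ m ∈ Icc 1 Y, (if m ∈ M then (1 : ℝ) else 0) * F m = ∑ m ∈ M, F m := by
    intro M hM F
    simp only [ite_mul, one_mul, zero_mul]
    rw [sum_ite_mem, inter_eq_right.2 hM]
  have hbad : ∀ A ∈ 𝒮, (n : ℝ) / L ^ (K + 1) ≤ ∑ l : τ, |∑ m ∈ Icc 1 Y, (if m ∈ 𝒩 l then (1 : ℝ) else 0) *
      (∏ i, lamP ((f i m : ℤ) + A i) - ∏ i, mdl z ((f i m : ℤ) + A i))| := by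
    intro A hA
    rw [h𝒮, mem_sdiff, mem_filter] at hA
    obtain ⟨⟨hA1, hA2⟩, hA3⟩ := hA
    have hlow : ∀ i, (n : ℝ) / L ^ (U + 1) ≤ A i := by
      intro i
      by_contra hcon
      push Not at hcon
      apply hA3
      rw [h𝒜, mem_filter]
      exact ⟨hA1, i, hcon⟩
    by_contra hcon
    push Not at hcon
    apply hA2
    intro l hRl
    have h5 : |∑ m ∈ Icc 1 Y, (if m ∈ 𝒩 l then (1 : ℝ) else 0) *
      (∏ i, lamP ((f i m : ℤ) + A i) - ∏ i, mdl z ((f i m : ℤ) + A i))| ≤ n / L ^ (K + 1) :=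
      (single_le_sum (f := fun l : τ => |∑ m ∈ Icc 1 Y, (if m ∈ 𝒩 l then (1 : ℝ) else 0) *
        (∏ i, lamP ((f i m : ℤ) + A i) - ∏ i, mdl z ((f i m : ℤ) + A i))|) (fun _ _ => abs_nonneg _) (mem_univ l)).trans hcon.le
    rw [hindic (𝒩 l) (h𝒩 l), sum_sub_distrib, sum_mdlq] at h5
    rw [← hL] at hRl ⊢
    have hVinv : 1 ≤ (Vz z)⁻¹ ^ k := one_le_pow₀ ((one_le_inv₀ (Vz_pos z)).2 (TH935.TG.Vz_le_one z))
    have hR0 : (0 : ℝ) ≤ rq f z A (𝒩 l) := Nat.cast_nonneg _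
    have h6 := b1 A hA1 hlow (𝒩 l) (h𝒩 l) ((Vz z)⁻¹ ^ k * rq f z A (𝒩 l)) (hRl.trans (le_mul_of_one_le_left hR0 hVinv)) h5
    have e1 : (Vz z)⁻¹ ^ k * (rq f z A (𝒩 l) : ℝ) / L ^ k = rq f z A (𝒩 l) / (Vz z * L) ^ k := by
      have := (Vz_pos z).ne'
      rw [mul_pow, inv_pow]
      field_simp
    rw [e1] at h6
    exact h6
  have hsum : (𝒮.card : ℝ) * (n / L ^ (K + 1)) ≤ L ^ T * (n ^ (k + 1) / L ^ (U + T + K + 2)) := by
    calc (𝒮.card : ℝ) * (n / L ^ (K + 1)) = ∑ _a ∈ 𝒮, (n : ℝ) / L ^ (K + 1) := by rw [sum_const, nsmul_eq_mul]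
      _ ≤ ∑ A ∈ 𝒮, ∑ l : τ, |∑ m ∈ Icc 1 Y, (if m ∈ 𝒩 l then (1 : ℝ) else 0) *
          (∏ i, lamP ((f i m : ℤ) + A i) - ∏ i, mdl z ((f i m : ℤ) + A i))| := sum_le_sum hbad
      _ ≤ ∑ A ∈ vec k n, ∑ l : τ, |∑ m ∈ Icc 1 Y, (if m ∈ 𝒩 l then (1 : ℝ) else 0) *
          (∏ i, lamP ((f i m : ℤ) + A i) - ∏ i, mdl z ((f i m : ℤ) + A i))| := by
          rw [h𝒮]
          exact sum_le_sum_of_subset_of_nonneg (sdiff_subset.trans (filter_subset _ _)) (fun _ _ _ => sum_nonneg fun _ _ => abs_nonneg _)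
      _ = ∑ l : τ, ∑ A ∈ vec k n, |∑ m ∈ Icc 1 Y, (if m ∈ 𝒩 l then (1 : ℝ) else 0) *
          (∏ i, lamP ((f i m : ℤ) + A i) - ∏ i, mdl z ((f i m : ℤ) + A i))| := sum_comm
      _ ≤ ∑ _l : τ, (n : ℝ) ^ (k + 1) / L ^ (U + T + K + 2) := by
          refine sum_le_sum fun l _ => b0' (fun m => if m ∈ 𝒩 l then (1 : ℝ) else 0) fun m => ?_
          split_ifs <;> simp
      _ = Fintype.card τ * (n ^ (k + 1) / L ^ (U + T + K + 2)) := by rw [sum_const, card_univ, nsmul_eq_mul]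
      _ ≤ L ^ T * (n ^ (k + 1) / L ^ (U + T + K + 2)) := mul_le_mul_of_nonneg_right ht (by positivity)
  have h6 : L ^ T * ((n : ℝ) ^ (k + 1) / L ^ (U + T + K + 2)) = (n ^ k / L ^ (U + 1)) * (n / L ^ (K + 1)) := by
    rw [pow_succ (n : ℝ) k, show U + T + K + 2 = T + (U + 1) + (K + 1) by ring, pow_add L (T + (U + 1)) (K + 1),
      pow_add L T (U + 1)]
    field_simp
  rw [h6] at hsum
  have h7 : (𝒮.card : ℝ) ≤ n ^ k / L ^ (U + 1) := le_of_mul_le_mul_right hsum (by positivity)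
  have h8 : (n : ℝ) ^ k / L ^ (U + 1) ≤ (1 / 2) * (n ^ k / L ^ U) := by
    rw [show (n : ℝ) ^ k / L ^ (U + 1) = (1 / L) * (n ^ k / L ^ U) by rw [pow_succ L U]; field_simp]
    apply mul_le_mul_of_nonneg_right _ (by positivity)
    exact one_div_le_one_div_of_le (by norm_num) (by linarith)
  have h9 : ((vec k n).filter (fun A => ¬ QA ε K n z f 𝒩 A)).card ≤ 𝒮.card + 𝒜.card := by
    rw [h𝒮]
    exact card_le_card_sdiff_add_card
  have h10 : (((vec k n).filter (fun A => ¬ QA ε K n z f 𝒩 A)).card : ℝ) ≤ 𝒮.card + 𝒜.card := by exact_mod_cast h9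
  linarith

end Pool.Agent.E8helper28.IX
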