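import Pool.Agent.E8helper28.IX.Ix2

set_option autoImplicit false
set_option maxHeartbeats 4000000

/-!
# Bounds for the primes and for the primes with prime index (copied from Pool/Agent/Y877/SxI.lean)
-/

namespace Pool.Agent.E8helper28.IX

open Finset Pool.Agent.H373R2.T7

/-- the primes are not too large -/
lemma nth_le_log : ∃ n0 : ℕ, ∀ n : ℕ, n0 ≤ n → ∀ i : ℕ, i ≤ 4 * n → (Nat.nth Nat.Prime i : ℝ) ≤ n * Real.log n ^ 2 := by
  obtain ⟨n1, hn1⟩ := ev_L' 40
  obtain ⟨n2, hn2⟩ := ev_log' 2 1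
  refine ⟨max n1 (max n2 1), fun n hn i hi => ?_⟩
  have b1 : n1 ≤ n := le_trans (le_max_left _ _) hn
  have b2 : n2 ≤ n := le_trans (le_trans (le_max_left _ _) (le_max_right _ _)) hn
  have b3 : 1 ≤ n := le_trans (le_trans (le_max_right _ _) (le_max_right _ _)) hn
  have hL := hn1 n b1
  have hs := hn2 n b2
  obtain ⟨L, hLd⟩ : ∃ L, L = Real.log n := ⟨_, rfl⟩
  rw [← hLd] at hL hs ⊢
  rw [one_mul] at hs
  have hnr : (1 : ℝ) ≤ n := by exact_mod_cast b3
  have hn0 : (0 : ℝ) < n := by linarith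
  have hsn : √(n : ℝ) ≤ n := by
    have h := Real.sq_sqrt hn0.le
    have h1 : 1 ≤ √(n : ℝ) := by rw [← Real.sqrt_one]; exact Real.sqrt_le_sqrt hnr
    nlinarith
  have hL2n : L ^ 2 ≤ n := hs.trans hsn
  obtain ⟨N, hNd⟩ : ∃ N, N = ⌊(n : ℝ) * L ^ 2⌋₊ := ⟨_, rfl⟩
  have hNu : (N : ℝ) ≤ n * L ^ 2 := by
    rw [hNd]
    exact Nat.floor_le (by positivity)
  have hNl : (n : ℝ) * L ^ 2 - 1 < N := by
    rw [hNd]
    exact Nat.sub_one_lt_floor _
  have hL21 : 1600 ≤ L ^ 2 := by nlinarith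
  have hnL : 1600 ≤ n * L ^ 2 := by nlinarith
  have hN1 : (1000 : ℝ) ≤ N := by linarith
  have hN0 : (0 : ℝ) < N := by linarith
  have hlN0 : 0 < Real.log N := Real.log_pos (by linarith)
  have hlN : Real.log N ≤ 2 * L := by
    have h1 : (N : ℝ) ≤ n ^ 2 := by nlinarith
    have := Real.log_le_log hN0 h1
    rw [Real.log_pow, ← hLd] at this
    push_cast at this
    exact this
  have hlN1 : Real.log ((N : ℝ) + 1) ≤ 3 * L := by
    have h1 : (N : ℝ) + 1 ≤ n ^ 3 := by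
      have h2 : (N : ℝ) ≤ n ^ 2 := by nlinarith
      have h3 : (2 : ℝ) ≤ n := by nlinarith
      have h4 : (n : ℝ) ^ 2 * 2 ≤ n ^ 2 * n := by gcongr
      nlinarith
    have := Real.log_le_log (by linarith) h1
    rw [Real.log_pow, ← hLd] at this
    push_cast at this
    exact this
  have hpi := Chebyshev.pi_ge N
  have hlog2 : (0.69 : ℝ) < Real.log 2 := by
    have := Real.log_two_gt_d9
    linarith
  have hgt : (4 * n : ℝ) < (N * Real.log 2 - Real.log (N + 1)) / Real.log N := by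
    rw [lt_div_iff₀ hlN0]
    have h1 : 4 * (n : ℝ) * Real.log N ≤ 4 * n * (2 * L) := by gcongr
    have h2 : (n * L ^ 2 - 1) * 0.69 ≤ N * Real.log 2 := by
      apply mul_le_mul hNl.le hlog2.le (by norm_num) hN0.le
    have h3 : 40 * (n * L) ≤ n * L ^ 2 := by nlinarith
    have h4 : L ≤ n * L := by nlinarith
    nlinarith
  have hlt : i < Nat.primeCounting N := by
    have h1 : ((4 * n : ℕ) : ℝ) < (Nat.primeCounting N : ℝ) := by
      push_cast
      exact lt_of_lt_of_le hgt hpi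
    have : 4 * n < Nat.primeCounting N := by exact_mod_cast h1
    omega
  have h5 : Nat.nth Nat.Prime i < N + 1 := by
    apply Nat.nth_lt_of_lt_count
    exact hlt
  have h6 : ((Nat.nth Nat.Prime i : ℕ) : ℝ) ≤ N := by exact_mod_cast Nat.lt_succ_iff.1 h5
  exact h6.trans hNu

/-- the primes with prime index are not too large -/
lemma nth_nth_le_log : ∃ n0 : ℕ, ∀ n : ℕ, n0 ≤ n → ∀ i : ℕ, i ≤ 4 * n →
    (Nat.nth Nat.Prime (Nat.nth Nat.Prime i - 1) : ℝ) ≤ n * Real.log n ^ 5 := by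
  obtain ⟨n1, h1⟩ := nth_le_log
  obtain ⟨n2, h2⟩ := ev_L' 40
  obtain ⟨n3, h3⟩ := ev_log' 2 1
  refine ⟨max n1 (max n2 (max n3 1)), fun n hn i hi => ?_⟩
  have b1 : n1 ≤ n := le_trans (le_max_left _ _) hn
  have b2 : n2 ≤ n := le_trans (le_trans (le_max_left _ _) (le_max_right _ _)) hn
  have b3 : n3 ≤ n := le_trans (le_trans (le_trans (le_max_left _ _) (le_max_right _ _)) (le_max_right _ _)) hn
  have b4 : 1 ≤ n := le_trans (le_trans (le_trans (le_max_right _ _) (le_max_right _ _)) (le_max_right _ _)) hn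
  have k1 := h1 n b1 i hi
  have hL := h2 n b2
  have hs := h3 n b3
  obtain ⟨L, hLd⟩ : ∃ L, L = Real.log n := ⟨_, rfl⟩
  rw [← hLd] at hL hs k1 ⊢
  rw [one_mul] at hs
  have hnr : (1 : ℝ) ≤ n := by exact_mod_cast b4
  have hn0 : (0 : ℝ) < n := by linarith
  have hsn : √(n : ℝ) ≤ n := by
    have h := Real.sq_sqrt hn0.le
    have h1 : 1 ≤ √(n : ℝ) := by rw [← Real.sqrt_one]; exact Real.sqrt_le_sqrt hnr
    nlinarith
  have hL2n : L ^ 2 ≤ n := hs.trans hsn
  obtain ⟨m, hmd⟩ : ∃ m, m = ⌊(n : ℝ) * L ^ 2⌋₊ := ⟨_, rfl⟩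
  have hmu : (m : ℝ) ≤ n * L ^ 2 := by
    rw [hmd]
    exact Nat.floor_le (by positivity)
  have hnm : n ≤ m := by
    rw [hmd]
    apply Nat.le_floor
    exact le_mul_of_one_le_right hn0.le (by nlinarith)
  have him : Nat.nth Nat.Prime i ≤ m := by
    rw [hmd]
    exact Nat.le_floor k1
  have k2 := h1 m (b1.trans hnm) (Nat.nth Nat.Prime i - 1) (by omega)
  refine k2.trans ?_
  have hm0 : (0 : ℝ) < m := lt_of_lt_of_le hn0 (by exact_mod_cast hnm)
  have hlm : Real.log m ≤ 2 * L := by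
    have h1 : (m : ℝ) ≤ n ^ 2 := by nlinarith
    have := Real.log_le_log hm0 h1
    rw [Real.log_pow, ← hLd] at this
    push_cast at this
    exact this
  have hlm0 : 0 ≤ Real.log m := Real.log_natCast_nonneg m
  have h5 : Real.log m ^ 2 ≤ (2 * L) ^ 2 := pow_le_pow_left₀ hlm0 hlm 2
  calc (m : ℝ) * Real.log m ^ 2 ≤ (n * L ^ 2) * (2 * L) ^ 2 := mul_le_mul hmu h5 (by positivity) (by positivity)
    _ = n * (4 * L ^ 4) := by ring
    _ ≤ n * L ^ 5 := by
        apply mul_le_mul_of_nonneg_left _ hn0.le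
        have : 0 ≤ L ^ 4 := by positivity
        nlinarith

lemma nth_inj {a b : ℕ} (h : Nat.nth Nat.Prime a = Nat.nth Nat.Prime b) : a = b :=
  Nat.nth_injective Nat.infinite_setOfPred_prime h

end Pool.Agent.E8helper28.IX
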